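import Pool.Agent.helper80.SV.Spec

set_option autoImplicit false

namespace Pool.Agent.SV

open MvPolynomial Module

section E11

variable {a b : ℕ}

def E11_xv (j : Fin (a + 1)) : Var (![a, b, 1] : Fin 3 → ℕ) := ⟨0, j⟩
def E11_yv (l : Fin (b + 1)) : Var (![a, b, 1] : Fin 3 → ℕ) := ⟨1, l⟩
def E11_sv : Var (![a, b, 1] : Fin 3 → ℕ) := ⟨2, (0 : Fin 2)⟩
def E11_tv : Var (![a, b, 1] : Fin 3 → ℕ) := ⟨2, (1 : Fin 2)⟩

theorem E11_cases (v : Var (![a, b, 1] : Fin 3 → ℕ)) :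
    (∃ j, v = E11_xv j) ∨ (∃ l, v = E11_yv l) ∨ v = E11_sv ∨ v = E11_tv := by
  obtain ⟨i, j⟩ := v
  fin_cases i
  · exact Or.inl ⟨j, rfl⟩
  · exact Or.inr (Or.inl ⟨j, rfl⟩)
  · refine Or.inr (Or.inr ?_)
    have : ∀ j : Fin 2, (⟨2, j⟩ : Var (![a, b, 1] : Fin 3 → ℕ)) = E11_sv ∨
        (⟨2, j⟩ : Var (![a, b, 1] : Fin 3 → ℕ)) = E11_tv := by
      intro j
      fin_cases j
      · exact Or.inl rfl
      · exact Or.inr rfl
    exact this j

@[simp] theorem E11_xx (j j' : Fin (a + 1)) :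
    (E11_xv j : Var (![a, b, 1] : Fin 3 → ℕ)) = E11_xv j' ↔ j = j' := by
  constructor
  · intro h
    have := (Sigma.mk.inj_iff.1 h).2
    exact eq_of_heq this
  · rintro rfl
    rfl

@[simp] theorem E11_yy (j j' : Fin (b + 1)) :
    (E11_yv j : Var (![a, b, 1] : Fin 3 → ℕ)) = E11_yv j' ↔ j = j' := by
  constructor
  · intro h
    have := (Sigma.mk.inj_iff.1 h).2
    exact eq_of_heq this
  · rintro rfl
    rfl

theorem E11_ne1 {v w : Var (![a, b, 1] : Fin 3 → ℕ)} (h : v.1 ≠ w.1) : v ≠ w :=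
  fun hh => h (congrArg Sigma.fst hh)

@[simp] theorem E11_xy (j : Fin (a + 1)) (l : Fin (b + 1)) :
    ((E11_xv j : Var (![a, b, 1] : Fin 3 → ℕ)) = E11_yv l) ↔ False :=
  iff_false_intro (E11_ne1 (by decide : (0 : Fin 3) ≠ 1))
@[simp] theorem E11_yx (j : Fin (a + 1)) (l : Fin (b + 1)) :
    ((E11_yv l : Var (![a, b, 1] : Fin 3 → ℕ)) = E11_xv j) ↔ False :=
  iff_false_intro (E11_ne1 (by decide : (1 : Fin 3) ≠ 0))
@[simp] theorem E11_xs (j : Fin (a + 1)) :
    ((E11_xv j : Var (![a, b, 1] : Fin 3 → ℕ)) = E11_sv) ↔ False :=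
  iff_false_intro (E11_ne1 (by decide : (0 : Fin 3) ≠ 2))
@[simp] theorem E11_sx (j : Fin (a + 1)) :
    ((E11_sv : Var (![a, b, 1] : Fin 3 → ℕ)) = E11_xv j) ↔ False :=
  iff_false_intro (E11_ne1 (by decide : (2 : Fin 3) ≠ 0))
@[simp] theorem E11_xt (j : Fin (a + 1)) :
    ((E11_xv j : Var (![a, b, 1] : Fin 3 → ℕ)) = E11_tv) ↔ False :=
  iff_false_intro (E11_ne1 (by decide : (0 : Fin 3) ≠ 2))
@[simp] theorem E11_tx (j : Fin (a + 1)) :
    ((E11_tv : Var (![a, b, 1] : Fin 3 → ℕ)) = E11_xv j) ↔ False :=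
  iff_false_intro (E11_ne1 (by decide : (2 : Fin 3) ≠ 0))
@[simp] theorem E11_ys (j : Fin (b + 1)) :
    ((E11_yv j : Var (![a, b, 1] : Fin 3 → ℕ)) = E11_sv) ↔ False :=
  iff_false_intro (E11_ne1 (by decide : (1 : Fin 3) ≠ 2))
@[simp] theorem E11_sy (j : Fin (b + 1)) :
    ((E11_sv : Var (![a, b, 1] : Fin 3 → ℕ)) = E11_yv j) ↔ False :=
  iff_false_intro (E11_ne1 (by decide : (2 : Fin 3) ≠ 1))
@[simp] theorem E11_yt (j : Fin (b + 1)) :
    ((E11_yv j : Var (![a, b, 1] : Fin 3 → ℕ)) = E11_tv) ↔ False :=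
  iff_false_intro (E11_ne1 (by decide : (1 : Fin 3) ≠ 2))
@[simp] theorem E11_ty (j : Fin (b + 1)) :
    ((E11_tv : Var (![a, b, 1] : Fin 3 → ℕ)) = E11_yv j) ↔ False :=
  iff_false_intro (E11_ne1 (by decide : (2 : Fin 3) ≠ 1))
@[simp] theorem E11_st :
    ((E11_sv : Var (![a, b, 1] : Fin 3 → ℕ)) = E11_tv) ↔ False := by
  refine iff_false_intro fun h => ?_
  have := eq_of_heq (Sigma.mk.inj_iff.1 h).2
  exact absurd this (by decide : (0 : Fin 2) ≠ 1)
@[simp] theorem E11_ts :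
    ((E11_tv : Var (![a, b, 1] : Fin 3 → ℕ)) = E11_sv) ↔ False := by
  refine iff_false_intro fun h => ?_
  have := eq_of_heq (Sigma.mk.inj_iff.1 h).2
  exact absurd this (by decide : (1 : Fin 2) ≠ 0)

theorem E11_one {κ : Type} [Fintype κ] (g : κ → ℕ) (h : ∑ i, g i = 1) :
    ∃ i, g i = 1 ∧ ∀ i', i' ≠ i → g i' = 0 := by
  classical
  have h1 : ∃ i, g i ≠ 0 := by
    by_contra hcon
    push Not at hcon
    rw [Finset.sum_eq_zero (fun i _ => hcon i)] at h
    exact absurd h (by norm_num)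
  obtain ⟨i, hi⟩ := h1
  have h2 := Finset.add_sum_erase Finset.univ g (Finset.mem_univ i)
  rw [h] at h2
  have h3 : ∑ x ∈ Finset.univ.erase i, g x = 0 := by omega
  refine ⟨i, by omega, fun i' hi' => ?_⟩
  exact Finset.sum_eq_zero_iff.1 h3 i' (Finset.mem_erase.2 ⟨hi', Finset.mem_univ _⟩)

/-- the monomials -/
noncomputable def E11_mm (e : ℕ) (j : Fin (a + 1)) (l : Fin (b + 1)) (k : ℕ) :
    Var (![a, b, 1] : Fin 3 → ℕ) →₀ ℕ :=
  Finsupp.single (E11_xv j) 1 + Finsupp.single (E11_yv l) 1 + Finsupp.single E11_sv (e - k) +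
    Finsupp.single E11_tv k

theorem E11_mon (e : ℕ) (m : Var (![a, b, 1] : Fin 3 → ℕ) →₀ ℕ)
    (h : ∀ i, ∑ j : Fin ((![a, b, 1] : Fin 3 → ℕ) i + 1), m ⟨i, j⟩ = (![1, 1, e] : Fin 3 → ℕ) i) :
    ∃ j l k, k ≤ e ∧ m = E11_mm e j l k := by
  have h0 : ∑ j : Fin (a + 1), m (E11_xv j) = 1 := h 0
  have h1 : ∑ j : Fin (b + 1), m (E11_yv j) = 1 := h 1
  have h2 : ∑ j : Fin 2, m (⟨2, j⟩ : Var (![a, b, 1] : Fin 3 → ℕ)) = e := h 2
  rw [Fin.sum_univ_two] at h2
  have h3 : m E11_sv + m E11_tv = e := h2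
  obtain ⟨j, hj, hj'⟩ := E11_one _ h0
  obtain ⟨l, hl, hl'⟩ := E11_one _ h1
  refine ⟨j, l, m E11_tv, by omega, ?_⟩
  ext v
  rcases E11_cases v with ⟨j', rfl⟩ | ⟨l', rfl⟩ | rfl | rfl
  · by_cases hjj : j' = j
    · subst hjj
      simp [E11_mm, hj]
    · simp [E11_mm, hj' j' hjj, Ne.symm hjj]
  · by_cases hjj : l' = l
    · subst hjj
      simp [E11_mm, hl]
    · simp [E11_mm, hl' l' hjj, Ne.symm hjj]
  · simp [E11_mm]
    omega
  · simp [E11_mm]

theorem E11_ind (e : ℕ) {f : MvPolynomial (Var (![a, b, 1] : Fin 3 → ℕ)) ℂ}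
    (hf : f ∈ MultiHom (![a, b, 1] : Fin 3 → ℕ) ![1, 1, e])
    (P : MvPolynomial (Var (![a, b, 1] : Fin 3 → ℕ)) ℂ → Prop) (h0 : P 0)
    (hadd : ∀ f g, P f → P g → P (f + g))
    (hm : ∀ j l k c, k ≤ e → P (monomial (E11_mm e j l k) c)) : P f := by
  rw [f.as_sum]
  refine Finset.sum_induction _ P hadd h0 ?_
  intro m hms
  obtain ⟨j, l, k, hk, rfl⟩ := E11_mon e m (hf m (MvPolynomial.mem_support_iff.1 hms))
  exact hm j l k _ hk

theorem E11_mono (e : ℕ) (j : Fin (a + 1)) (l : Fin (b + 1)) (k : ℕ) (c : ℂ) :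
    (monomial (E11_mm e j l k) c : MvPolynomial (Var (![a, b, 1] : Fin 3 → ℕ)) ℂ) =
      C c * (X (E11_xv j) * (X (E11_yv l) * (X E11_sv ^ (e - k) * X E11_tv ^ k))) := by
  rw [X_pow_eq_monomial, X_pow_eq_monomial, X, X, C_mul', monomial_mul, monomial_mul,
    monomial_mul, smul_monomial]
  simp [E11_mm, add_assoc]

/-- substitution -/
noncomputable def E11_pt (j : Fin (a + 1)) (l : Fin (b + 1)) :
    Var (![a, b, 1] : Fin 3 → ℕ) → Polynomial ℂ := fun v =>
  if v = E11_xv j then 1 else if v = E11_yv l then 1 else if v = E11_sv then 1 else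
    if v = E11_tv then Polynomial.X else 0

noncomputable def E11_psi (j : Fin (a + 1)) (l : Fin (b + 1)) :
    MvPolynomial (Var (![a, b, 1] : Fin 3 → ℕ)) ℂ →ₐ[ℂ] Polynomial ℂ :=
  aeval (E11_pt j l)

theorem E11_psi_mono (e : ℕ) (j j' : Fin (a + 1)) (l l' : Fin (b + 1)) (k : ℕ) (c : ℂ) :
    E11_psi j l (monomial (E11_mm e j' l' k) c : MvPolynomial (Var (![a, b, 1] : Fin 3 → ℕ)) ℂ) =
      if j' = j ∧ l' = l then Polynomial.C c * Polynomial.X ^ k else 0 := by
  rw [E11_mono]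
  simp only [E11_psi, map_mul, map_pow, aeval_X, E11_pt]
  by_cases h1 : j' = j
  · by_cases h2 : l' = l
    · simp [h1, h2]
    · simp [h1, h2]
  · simp [h1]

theorem E11_psi_coeff (e : ℕ) {f : MvPolynomial (Var (![a, b, 1] : Fin 3 → ℕ)) ℂ}
    (hf : f ∈ MultiHom (![a, b, 1] : Fin 3 → ℕ) ![1, 1, e]) (j : Fin (a + 1)) (l : Fin (b + 1))
    (k : ℕ) (hk : k ≤ e) : (E11_psi j l f).coeff k = coeff (E11_mm e j l k) f := by
  revert hk
  refine E11_ind e hf (fun f => k ≤ e → (E11_psi j l f).coeff k = coeff (E11_mm e j l k) f)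
    ?_ ?_ ?_
  · intro _
    simp
  · intro f g hf hg hk
    rw [map_add, Polynomial.coeff_add, coeff_add, hf hk, hg hk]
  · intro j' l' k' c hk' hk
    rw [E11_psi_mono, coeff_monomial]
    by_cases h1 : j' = j
    · by_cases h2 : l' = l
      · subst h1
        subst h2
        by_cases h3 : k' = k
        · subst h3
          simp
        · have h4 : E11_mm e j' l' k' ≠ E11_mm (a := a) (b := b) e j' l' k := by
            intro h
            apply h3
            have := DFunLike.congr_fun h E11_tv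
            simpa [E11_mm, Finsupp.single_apply] using this
          simp [h4, Polynomial.coeff_X_pow, Ne.symm h3]
      · have h4 : E11_mm e j' l' k' ≠ E11_mm (a := a) (b := b) e j l k := by
          intro h
          apply h2
          have := DFunLike.congr_fun h (E11_yv l')
          simp [E11_mm, Finsupp.single_apply] at this
          by_contra h5
          simp [Ne.symm h5] at this
        simp [h2, h4]
    · have h4 : E11_mm e j' l' k' ≠ E11_mm (a := a) (b := b) e j l k := by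
        intro h
        apply h1
        have := DFunLike.congr_fun h (E11_xv j')
        simp [E11_mm, Finsupp.single_apply] at this
        by_contra h5
        simp [Ne.symm h5] at this
      simp [h1, h4]

theorem E11_inj (e : ℕ) {f : MvPolynomial (Var (![a, b, 1] : Fin 3 → ℕ)) ℂ}
    (hf : f ∈ MultiHom (![a, b, 1] : Fin 3 → ℕ) ![1, 1, e]) (h : ∀ j l, E11_psi j l f = 0) :
    f = 0 := by
  ext m
  rw [coeff_zero]
  by_contra hne
  obtain ⟨j, l, k, hk, rfl⟩ := E11_mon e m (hf m hne)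
  apply hne
  rw [← E11_psi_coeff e hf j l k hk, h, Polynomial.coeff_zero]

theorem E11_deg (e : ℕ) {f : MvPolynomial (Var (![a, b, 1] : Fin 3 → ℕ)) ℂ}
    (hf : f ∈ MultiHom (![a, b, 1] : Fin 3 → ℕ) ![1, 1, e]) (j : Fin (a + 1)) (l : Fin (b + 1)) :
    (E11_psi j l f).natDegree ≤ e := by
  refine E11_ind e hf (fun f => (E11_psi j l f).natDegree ≤ e) ?_ ?_ ?_
  · simp
  · intro f g hf hg
    rw [map_add]
    exact (Polynomial.natDegree_add_le _ _).trans (max_le hf hg)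
  · intro j' l' k' c hk'
    rw [E11_psi_mono]
    split_ifs
    · exact (Polynomial.natDegree_C_mul_X_pow_le _ _).trans hk'
    · simp

/-- the point -/
def E11_P (p : Fin (a + 1)) (q : Fin (b + 1)) (z : ℂ) : Var (![a, b, 1] : Fin 3 → ℕ) → ℂ := fun v =>
  if v = E11_xv p then 1 else if v = E11_yv q then 1 else if v = E11_sv then 1 else
    if v = E11_tv then z else 0

theorem E11_R1 (e : ℕ) {f : MvPolynomial (Var (![a, b, 1] : Fin 3 → ℕ)) ℂ}
    (hf : f ∈ MultiHom (![a, b, 1] : Fin 3 → ℕ) ![1, 1, e]) (p j : Fin (a + 1))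
    (q : Fin (b + 1)) (z : ℂ) :
    eval (E11_P p q z) (pderiv (E11_xv j) f) = (E11_psi j q f).eval z := by
  refine E11_ind e hf (fun f =>
    eval (E11_P p q z) (pderiv (E11_xv j) f) = (E11_psi j q f).eval z) ?_ ?_ ?_
  · simp
  · intro f g hf hg
    rw [map_add, map_add, map_add, hf, hg, Polynomial.eval_add]
  · intro j' l' k c hk
    rw [E11_psi_mono, E11_mono]
    simp only [pderiv_mul, pderiv_pow, pderiv_C, pderiv_X, Pi.single_apply, map_add, map_mul,
      map_pow, eval_X, eval_C, E11_P]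
    by_cases h1 : j' = j
    · by_cases h2 : l' = q
      · simp [h1, h2]
      · simp [h1, h2]
    · simp [h1]

theorem E11_R2 (e : ℕ) {f : MvPolynomial (Var (![a, b, 1] : Fin 3 → ℕ)) ℂ}
    (hf : f ∈ MultiHom (![a, b, 1] : Fin 3 → ℕ) ![1, 1, e]) (p : Fin (a + 1))
    (q l : Fin (b + 1)) (z : ℂ) :
    eval (E11_P p q z) (pderiv (E11_yv l) f) = (E11_psi p l f).eval z := by
  refine E11_ind e hf (fun f =>
    eval (E11_P p q z) (pderiv (E11_yv l) f) = (E11_psi p l f).eval z) ?_ ?_ ?_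
  · simp
  · intro f g hf hg
    rw [map_add, map_add, map_add, hf, hg, Polynomial.eval_add]
  · intro j' l' k c hk
    rw [E11_psi_mono, E11_mono]
    simp only [pderiv_mul, pderiv_pow, pderiv_C, pderiv_X, Pi.single_apply, map_add, map_mul,
      map_pow, eval_X, eval_C, E11_P]
    by_cases h1 : j' = p
    · by_cases h2 : l' = l
      · simp [h1, h2]
      · simp [h1, h2]
    · simp [h1]

theorem E11_R3 (e : ℕ) {f : MvPolynomial (Var (![a, b, 1] : Fin 3 → ℕ)) ℂ}
    (hf : f ∈ MultiHom (![a, b, 1] : Fin 3 → ℕ) ![1, 1, e]) (p : Fin (a + 1))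
    (q : Fin (b + 1)) (z : ℂ) :
    eval (E11_P p q z) (pderiv E11_tv f) = (Polynomial.derivative (E11_psi p q f)).eval z := by
  refine E11_ind e hf (fun f =>
    eval (E11_P p q z) (pderiv E11_tv f) = (Polynomial.derivative (E11_psi p q f)).eval z) ?_ ?_ ?_
  · simp
  · intro f g hf hg
    rw [map_add, map_add, map_add, hf, hg, map_add, Polynomial.eval_add]
  · intro j' l' k c hk
    rw [E11_psi_mono, E11_mono]
    simp only [pderiv_mul, pderiv_pow, pderiv_C, pderiv_X, Pi.single_apply, map_add, map_mul,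
      map_pow, eval_X, eval_C, E11_P]
    by_cases h1 : j' = p
    · by_cases h2 : l' = q
      · simp [h1, h2, Polynomial.derivative_X_pow]
      · simp [h1, h2]
    · simp [h1]

/-- double roots -/
theorem E11_dvd (F : Polynomial ℂ) (r : ℕ) (ν : ℕ → ℕ) (h2 : ∀ i, ν i ≤ 2)
    (hr1 : ∀ i < r, 1 ≤ ν i → F.eval (i : ℂ) = 0)
    (hr2 : ∀ i < r, ν i = 2 → (Polynomial.derivative F).eval (i : ℂ) = 0) :
    ∏ i ∈ Finset.range r, (Polynomial.X - Polynomial.C (i : ℂ)) ^ ν i ∣ F := by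
  refine Finset.prod_dvd_of_coprime ?_ ?_
  · intro i _ j _ hij
    apply IsCoprime.pow
    apply Polynomial.isCoprime_X_sub_C_of_isUnit_sub
    rw [isUnit_iff_ne_zero, sub_ne_zero]
    exact_mod_cast hij
  · intro i hi
    rw [Finset.mem_range] at hi
    have h3 : ν i = 0 ∨ ν i = 1 ∨ ν i = 2 := by
      have := h2 i
      omega
    rcases h3 with h | h | h
    · rw [h, pow_zero]
      exact one_dvd _
    · rw [h, pow_one, Polynomial.dvd_iff_isRoot]
      exact hr1 i hi (by omega)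
    · rw [h]
      obtain ⟨G, hG⟩ := Polynomial.dvd_iff_isRoot.2 (hr1 i hi (by omega) : F.IsRoot (i : ℂ))
      have h4 := hr2 i hi h
      rw [hG] at h4
      have h5 : G.eval (i : ℂ) = 0 := by
        simpa using h4
      obtain ⟨G', hG'⟩ := Polynomial.dvd_iff_isRoot.2 (h5 : G.IsRoot (i : ℂ))
      exact ⟨G', by rw [hG, hG']; ring⟩

/-- the space of multiples -/
noncomputable def E11_W (e r : ℕ) (ν : ℕ → ℕ) : Submodule ℂ (Polynomial ℂ) :=
  (Polynomial.degreeLT ℂ (e + 1 - ∑ i ∈ Finset.range r, ν i)).map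
    (LinearMap.mulLeft ℂ (∏ i ∈ Finset.range r, (Polynomial.X - Polynomial.C (i : ℂ)) ^ ν i))

theorem E11_W_fin (e r : ℕ) (ν : ℕ → ℕ) : Module.Finite ℂ (E11_W e r ν) := by
  unfold E11_W
  have : Module.Finite ℂ (Polynomial.degreeLT ℂ (e + 1 - ∑ i ∈ Finset.range r, ν i)) :=
    Module.Finite.equiv (Polynomial.degreeLTEquiv ℂ _).symm
  exact Module.Finite.map _ _

theorem E11_W_rank (e r : ℕ) (ν : ℕ → ℕ) :
    finrank ℂ (E11_W e r ν) ≤ e + 1 - ∑ i ∈ Finset.range r, ν i := by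
  unfold E11_W
  have : Module.Finite ℂ (Polynomial.degreeLT ℂ (e + 1 - ∑ i ∈ Finset.range r, ν i)) :=
    Module.Finite.equiv (Polynomial.degreeLTEquiv ℂ _).symm
  refine (Submodule.finrank_map_le _ _).trans ?_
  rw [(Polynomial.degreeLTEquiv ℂ (e + 1 - ∑ i ∈ Finset.range r, ν i)).finrank_eq]
  simp

theorem E11_W_mem (e r : ℕ) (ν : ℕ → ℕ) (F : Polynomial ℂ) (hF : F.natDegree ≤ e)
    (hd : ∏ i ∈ Finset.range r, (Polynomial.X - Polynomial.C (i : ℂ)) ^ ν i ∣ F) :
    F ∈ E11_W e r ν := by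
  obtain ⟨G, hG⟩ := hd
  refine ⟨G, ?_, hG.symm⟩
  by_cases hG0 : G = 0
  · rw [hG0]
    exact Submodule.zero_mem _
  have hm : (∏ i ∈ Finset.range r, (Polynomial.X - Polynomial.C (i : ℂ)) ^ ν i).Monic :=
    Polynomial.monic_prod_of_monic _ _ fun i _ => (Polynomial.monic_X_sub_C _).pow _
  have h1 : F.natDegree = ∑ i ∈ Finset.range r, ν i + G.natDegree := by
    rw [hG, hm.natDegree_mul' hG0, Polynomial.natDegree_prod_of_monic _ _
      (fun i _ => (Polynomial.monic_X_sub_C _).pow _)]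
    congr 1
    refine Finset.sum_congr rfl fun i _ => ?_
    rw [(Polynomial.monic_X_sub_C _).natDegree_pow, Polynomial.natDegree_X_sub_C, mul_one]
  rw [SetLike.mem_coe, Polynomial.mem_degreeLT, Polynomial.degree_eq_natDegree hG0]
  exact_mod_cast (by omega : G.natDegree < e + 1 - ∑ i ∈ Finset.range r, ν i)

/-- multiplicities -/
def E11_nu (a b : ℕ) (j : Fin (a + 1)) (l : Fin (b + 1)) (i : ℕ) : ℕ :=
  (if i % (a + 1) = j then 1 else 0) + (if i % (b + 1) = l then 1 else 0)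

def E11_X (a b r : ℕ) (i : Fin r) : Var (![a, b, 1] : Fin 3 → ℕ) → ℂ :=
  E11_P ⟨(i : ℕ) % (a + 1), Nat.mod_lt _ (Nat.succ_pos _)⟩
    ⟨(i : ℕ) % (b + 1), Nat.mod_lt _ (Nat.succ_pos _)⟩ ((i : ℕ) : ℂ)

theorem E11_memW (hMHS : MHS_stmt) (e r : ℕ) (f : MvPolynomial (Var (![a, b, 1] : Fin 3 → ℕ)) ℂ)
    (hf : f ∈ Sng (Sigma.fst : Var (![a, b, 1] : Fin 3 → ℕ) → Fin 3) ![1, 1, e] (E11_X a b r))
    (j : Fin (a + 1)) (l : Fin (b + 1)) : E11_psi j l f ∈ E11_W e r (E11_nu a b j l) := by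
  rw [mem_Sng] at hf
  obtain ⟨hf1, hf2⟩ := hf
  rw [← hMHS] at hf1
  apply E11_W_mem e r _ _ (E11_deg e hf1 j l)
  apply E11_dvd
  · intro i
    unfold E11_nu
    split_ifs <;> norm_num
  · intro i hi hν
    unfold E11_nu at hν
    by_cases h1 : i % (a + 1) = j
    · have h2 := hf2 ⟨i, hi⟩ (E11_yv l)
      unfold E11_X at h2
      rw [E11_R2 e hf1] at h2
      have h3 : (⟨i % (a + 1), Nat.mod_lt _ (Nat.succ_pos _)⟩ : Fin (a + 1)) = j := Fin.ext h1
      simp only at h2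
      rwa [h3] at h2
    · have h4 : i % (b + 1) = l := by
        by_contra h5
        simp [h1, h5] at hν
      have h2 := hf2 ⟨i, hi⟩ (E11_xv j)
      unfold E11_X at h2
      rw [E11_R1 e hf1] at h2
      have h3 : (⟨i % (b + 1), Nat.mod_lt _ (Nat.succ_pos _)⟩ : Fin (b + 1)) = l := Fin.ext h4
      simp only at h2
      rwa [h3] at h2
  · intro i hi hν
    unfold E11_nu at hν
    have h1 : i % (a + 1) = j := by
      by_contra h5
      rw [if_neg h5] at hν
      split_ifs at hν <;> omega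
    have h4 : i % (b + 1) = l := by
      by_contra h5
      rw [if_neg h5, if_pos h1] at hν
      omega
    have h2 := hf2 ⟨i, hi⟩ E11_tv
    unfold E11_X at h2
    rw [E11_R3 e hf1] at h2
    have h3 : (⟨i % (b + 1), Nat.mod_lt _ (Nat.succ_pos _)⟩ : Fin (b + 1)) = l := Fin.ext h4
    have h3' : (⟨i % (a + 1), Nat.mod_lt _ (Nat.succ_pos _)⟩ : Fin (a + 1)) = j := Fin.ext h1
    simp only at h2
    rwa [h3, h3'] at h2

noncomputable def E11_L (a b e r : ℕ) (j : Fin (a + 1)) (l : Fin (b + 1)) :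
    ↥(Sng (Sigma.fst : Var (![a, b, 1] : Fin 3 → ℕ) → Fin 3) ![1, 1, e] (E11_X a b r)) →ₗ[ℂ]
      Polynomial ℂ :=
  (E11_psi j l).toLinearMap ∘ₗ Submodule.subtype _

theorem E11_L_apply (a b e r : ℕ) (j : Fin (a + 1)) (l : Fin (b + 1))
    (f : ↥(Sng (Sigma.fst : Var (![a, b, 1] : Fin 3 → ℕ) → Fin 3) ![1, 1, e] (E11_X a b r))) :
    E11_L a b e r j l f = E11_psi j l (f : MvPolynomial (Var (![a, b, 1] : Fin 3 → ℕ)) ℂ) := rfl

theorem E11_dim (hMHS : MHS_stmt) (e r : ℕ) :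
    finrank ℂ ↥(Sng (Sigma.fst : Var (![a, b, 1] : Fin 3 → ℕ) → Fin 3) ![1, 1, e]
      (E11_X a b r)) ≤ ∑ jl : Fin (a + 1) × Fin (b + 1),
        (e + 1 - ∑ i ∈ Finset.range r, E11_nu a b jl.1 jl.2 i) := by
  have hfin : ∀ jl : Fin (a + 1) × Fin (b + 1),
      Module.Finite ℂ (E11_W e r (E11_nu a b jl.1 jl.2)) := fun jl => E11_W_fin e r _
  let Θ : ↥(Sng (Sigma.fst : Var (![a, b, 1] : Fin 3 → ℕ) → Fin 3) ![1, 1, e] (E11_X a b r)) →ₗ[ℂ]
      (∀ jl : Fin (a + 1) × Fin (b + 1), E11_W e r (E11_nu a b jl.1 jl.2)) :=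
    LinearMap.pi fun jl => LinearMap.codRestrict (E11_W e r (E11_nu a b jl.1 jl.2))
      (E11_L a b e r jl.1 jl.2) (by
        intro f
        rw [E11_L_apply]
        exact E11_memW hMHS e r _ f.2 jl.1 jl.2)
  have hΘ : Function.Injective Θ := by
    rw [← LinearMap.ker_eq_bot, LinearMap.ker_eq_bot']
    intro f hf
    apply Subtype.ext
    have hf1 := (mem_Sng.1 f.2).1
    rw [← hMHS] at hf1
    refine E11_inj e hf1 fun j l => ?_
    have h1 := congrArg Subtype.val (congrFun hf (j, l))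
    rw [← E11_L_apply]
    exact h1
  refine (LinearMap.finrank_le_finrank_of_injective hΘ).trans ?_
  rw [Module.finrank_pi_fintype]
  exact Finset.sum_le_sum fun jl _ => E11_W_rank e r _

theorem E11_cnt (A r j : ℕ) (hA : 0 < A) (hj : j < A) :
    (r / A ≤ ∑ i ∈ Finset.range r, (if i % A = j then 1 else 0)) ∧
    (∑ i ∈ Finset.range r, (if i % A = j then 1 else 0) ≤ r / A + 1) ∧
    (A ∣ r → ∑ i ∈ Finset.range r, (if i % A = j then 1 else 0) = r / A) := by
  have h1 : ∑ i ∈ Finset.range r, (if i % A = j then 1 else 0) =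
      r / A + if j % A < r % A then 1 else 0 := by
    rw [← Nat.count_modEq_card r hA j, Nat.count_eq_card_filter_range, Finset.sum_boole]
    simp only [Nat.cast_id]
    congr 1
    refine Finset.filter_congr fun i _ => ?_
    rw [Nat.ModEq, Nat.mod_eq_of_lt hj]
  rw [h1]
  refine ⟨by omega, ?_, ?_⟩
  · split_ifs <;> omega
  · intro hd
    rw [if_neg (by rw [Nat.mod_eq_zero_of_dvd hd]; omega)]
    rfl

theorem E11_tot (A r : ℕ) (hA : 0 < A) :
    ∑ j : Fin A, ∑ i ∈ Finset.range r, (if i % A = (j : ℕ) then 1 else 0) = r := by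
  rw [Finset.sum_comm]
  have : ∀ i ∈ Finset.range r, ∑ j : Fin A, (if i % A = (j : ℕ) then 1 else 0) = 1 := by
    intro i _
    rw [Finset.sum_eq_single (⟨i % A, Nat.mod_lt _ hA⟩ : Fin A)]
    · simp
    · intro j _ hj
      rw [if_neg]
      intro h
      exact hj (Fin.ext h.symm)
    · intro h
      exact absurd (Finset.mem_univ _) h
  rw [Finset.sum_congr rfl this]
  simp

theorem E11_sum (A B e r : ℕ) (cA : Fin A → ℕ) (cB : Fin B → ℕ) (hA : ∑ j, cA j = r)
    (hB : ∑ l, cB l = r)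
    (h : (∀ j l, cA j + cB l ≤ e + 1) ∨ (∀ j l, e + 1 ≤ cA j + cB l)) :
    ∑ jl : Fin A × Fin B, (e + 1 - (cA jl.1 + cB jl.2)) ≤ A * B * (e + 1) - r * (A + B) := by
  rcases h with h | h
  · apply le_of_eq
    apply Nat.eq_sub_of_add_eq
    have h1 : r * (A + B) = ∑ jl : Fin A × Fin B, (cA jl.1 + cB jl.2) := by
      rw [Fintype.sum_prod_type, Finset.sum_congr rfl
        (fun j _ => Finset.sum_add_distrib (f := fun _ : Fin B => cA j) (g := cB)),
        Finset.sum_add_distrib]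
      simp only [Finset.sum_const, Finset.card_univ, Fintype.card_fin, smul_eq_mul]
      rw [← Finset.mul_sum, hA, hB]
      ring
    rw [h1, ← Finset.sum_add_distrib]
    rw [Finset.sum_congr rfl (fun jl _ => Nat.sub_add_cancel (h jl.1 jl.2))]
    simp
  · rw [Finset.sum_eq_zero]
    · exact Nat.zero_le _
    · intro jl _
      exact Nat.sub_eq_zero_of_le (h jl.1 jl.2)

theorem E11_card {k : ℕ} (n : Fin k → ℕ) (i : Fin k) :
    (Finset.univ.filter (fun v : Var n => Sigma.fst v = i)).card = n i + 1 := by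
  have : Finset.univ.filter (fun v : Var n => Sigma.fst v = i) =
      Finset.univ.map ⟨fun j : Fin (n i + 1) => (⟨i, j⟩ : Var n),
        fun j j' h => eq_of_heq (Sigma.mk.inj_iff.1 h).2⟩ := by
    ext ⟨i', j⟩
    simp only [Finset.mem_filter, Finset.mem_univ, true_and, Finset.mem_map,
      Function.Embedding.coeFn_mk]
    constructor
    · rintro rfl
      exact ⟨j, rfl⟩
    · rintro ⟨j', h⟩
      exact (congrArg Sigma.fst h).symm
  rw [this, Finset.card_map]
  simp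

theorem E11_finrank (hDIM : DIM_stmt) (hMHS : MHS_stmt) {k : ℕ} (n d : Fin k → ℕ) :
    finrank ℂ (MultiHom n d) = ∏ i, Nat.multichoose (n i + 1) (d i) := by
  rw [hMHS, hDIM]
  exact Finset.prod_congr rfl fun i _ => by rw [E11_card]

theorem E11_fin (hMHS : MHS_stmt) {k : ℕ} (n d : Fin k → ℕ) :
    Module.Finite ℂ (MultiHom n d) := by
  rw [hMHS]
  infer_instance

theorem E11_mul {k : ℕ} {n d1 d2 d : Fin k → ℕ} (hd : ∀ i, d1 i + d2 i = d i)
    {f g : MvPolynomial (Var n) ℂ} (hf : f ∈ MultiHom n d1) (hg : g ∈ MultiHom n d2) :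
    f * g ∈ MultiHom n d := by
  intro m hm i
  rw [coeff_mul] at hm
  obtain ⟨⟨m1, m2⟩, h1, h2⟩ := Finset.exists_ne_zero_of_sum_ne_zero hm
  rw [Finset.HasAntidiagonal.mem_antidiagonal] at h1
  simp only at h1 h2
  have h3 := hf m1 (left_ne_zero_of_mul h2) i
  have h4 := hg m2 (right_ne_zero_of_mul h2) i
  rw [← h1, ← hd i, ← h3, ← h4, ← Finset.sum_add_distrib]
  rfl

/-- evaluations -/
noncomputable def E11_ev {k : ℕ} (n d : Fin k → ℕ) {r : ℕ} (p : Fin r → Var n → ℂ) :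
    ↥(MultiHom n d) →ₗ[ℂ] (Fin r → ℂ) :=
  LinearMap.pi fun l => evL (p l) ∘ₗ (MultiHom n d).subtype

theorem E11_ker (hMHS : MHS_stmt) {k : ℕ} (n d : Fin k → ℕ) {r : ℕ} (p : Fin r → Var n → ℂ) :
    finrank ℂ (MultiHom n d) ≤ finrank ℂ (LinearMap.ker (E11_ev n d p)) + r := by
  have := E11_fin hMHS n d
  have h1 := LinearMap.finrank_range_add_finrank_ker (E11_ev n d p)
  have h2 : finrank ℂ (LinearMap.range (E11_ev n d p)) ≤ r := by
    refine (Submodule.finrank_le _).trans ?_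
    simp
  omega

theorem E11_mulSys {k : ℕ} {n d1 d2 d : Fin k → ℕ} (hd : ∀ i, d1 i + d2 i = d i) {r : ℕ}
    (p : Fin r → Var n → ℂ) {f g : MvPolynomial (Var n) ℂ} (hf : f ∈ MultiHom n d1)
    (hg : g ∈ MultiHom n d2) (hf0 : ∀ l, eval (p l) f = 0) (hg0 : ∀ l, eval (p l) g = 0) :
    f * g ∈ Sys n d p := by
  refine ⟨E11_mul hd hf hg, ?_⟩
  rw [SetLike.mem_coe, Submodule.mem_iInf]
  intro l
  refine ⟨?_, fun v => ?_⟩
  · rw [map_mul, hf0, zero_mul]
  · rw [pderiv_mul, map_add, map_mul, map_mul, hf0, hg0, mul_zero, zero_mul, add_zero]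

theorem E11_mem_ker {k : ℕ} {n d : Fin k → ℕ} {r : ℕ} {p : Fin r → Var n → ℂ}
    {g : ↥(MultiHom n d)} (hg : g ∈ LinearMap.ker (E11_ev n d p)) (l : Fin r) :
    eval (p l) (g : MvPolynomial (Var n) ℂ) = 0 := by
  have := congrFun (LinearMap.mem_ker.1 hg) l
  rw [← evL_apply]
  exact this

theorem E11_sysdim (hMHS : MHS_stmt) {k : ℕ} {n d1 d2 d : Fin k → ℕ}
    (hd : ∀ i, d1 i + d2 i = d i) {r : ℕ} (p : Fin r → Var n → ℂ)
    (h1 : r < finrank ℂ (MultiHom n d1)) :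
    finrank ℂ (MultiHom n d2) ≤ finrank ℂ (Sys n d p) + r := by
  have i1 := E11_fin hMHS n d1
  have i2 := E11_fin hMHS n d2
  have i3 := E11_fin hMHS n d
  have i4 : Module.Finite ℂ (Sys n d p) :=
    Submodule.finiteDimensional_of_le (inf_le_left : Sys n d p ≤ MultiHom n d)
  have h2 := E11_ker hMHS n d1 p
  have h3 : 0 < finrank ℂ (LinearMap.ker (E11_ev n d1 p)) := by omega
  have hne : LinearMap.ker (E11_ev n d1 p) ≠ ⊥ := by
    intro h
    rw [h, finrank_bot] at h3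
    exact lt_irrefl _ h3
  obtain ⟨f, hf, hf0⟩ := Submodule.exists_mem_ne_zero_of_ne_bot hne
  have hf1 : (f : MvPolynomial (Var n) ℂ) ≠ 0 := by
    intro h
    apply hf0
    exact Subtype.ext h
  let M : ↥(LinearMap.ker (E11_ev n d2 p)) →ₗ[ℂ] ↥(Sys n d p) :=
    LinearMap.codRestrict (Sys n d p) (LinearMap.mulLeft ℂ (f : MvPolynomial (Var n) ℂ) ∘ₗ
      (MultiHom n d2).subtype ∘ₗ (LinearMap.ker (E11_ev n d2 p)).subtype) (by
        intro g
        exact E11_mulSys hd p f.2 g.1.2 (E11_mem_ker hf) (E11_mem_ker g.2))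
  have hM : Function.Injective M := by
    intro g g' h
    have h4 : (f : MvPolynomial (Var n) ℂ) * (g.1 : MvPolynomial (Var n) ℂ) =
        (f : MvPolynomial (Var n) ℂ) * (g'.1 : MvPolynomial (Var n) ℂ) :=
      congrArg Subtype.val h
    exact Subtype.ext (Subtype.ext (mul_left_cancel₀ hf1 h4))
  have h5 := LinearMap.finrank_le_finrank_of_injective hM
  have h6 := E11_ker hMHS n d2 p
  omega

theorem E11_notGen {k : ℕ} (n : Fin k → ℕ) (r : ℕ) (Q : (Fin r → Var n → ℂ) → Prop)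
    (hQ : ∀ p, ¬ Q p) : ¬ General n r Q := by
  rintro ⟨F, hF, h⟩
  have hG : F * ∏ l : Fin r, ∏ i : Fin k, (X (l, (⟨i, 0⟩ : Var n)) :
      MvPolynomial (Fin r × Var n) ℂ) ≠ 0 := by
    refine mul_ne_zero hF (Finset.prod_ne_zero_iff.2 fun l _ => Finset.prod_ne_zero_iff.2
      fun i _ => X_ne_zero _)
  have h1 : ∃ x, eval x (F * ∏ l : Fin r, ∏ i : Fin k, (X (l, (⟨i, 0⟩ : Var n)) :
      MvPolynomial (Fin r × Var n) ℂ)) ≠ 0 := by
    by_contra hcon
    push Not at hcon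
    apply hG
    apply MvPolynomial.funext
    intro x
    rw [hcon x, map_zero]
  obtain ⟨x, hx⟩ := h1
  rw [map_mul] at hx
  refine hQ _ (h (fun l v => x (l, v)) ?_ ?_)
  · intro l i
    refine ⟨0, ?_⟩
    have h2 := right_ne_zero_of_mul hx
    rw [map_prod] at h2
    have h3 := Finset.prod_ne_zero_iff.1 h2 l (Finset.mem_univ _)
    rw [map_prod] at h3
    have h4 := Finset.prod_ne_zero_iff.1 h3 i (Finset.mem_univ _)
    rwa [eval_X] at h4
  · exact left_ne_zero_of_mul hx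

theorem E11_special (hMHS : MHS_stmt) {k : ℕ} {n d1 d2 d : Fin k → ℕ}
    (hd : ∀ i, d1 i + d2 i = d i) {r : ℕ} (hr : 1 ≤ r) (h1 : r < finrank ℂ (MultiHom n d1))
    (h2 : finrank ℂ (MultiHom n d) - r * (∑ i, n i + 1) + r < finrank ℂ (MultiHom n d2)) :
    Special n d := by
  refine ⟨r, hr, E11_notGen n r _ fun p hp => ?_⟩
  unfold Independent at hp
  have h3 := E11_sysdim hMHS hd p h1
  omega

theorem E11_h (hDIM : DIM_stmt) (hMHS : MHS_stmt) (a b u v w : ℕ) :
    finrank ℂ (MultiHom (![a, b, 1] : Fin 3 → ℕ) ![u, v, w]) =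
      Nat.multichoose (a + 1) u * Nat.multichoose (b + 1) v * (w + 1) := by
  rw [E11_finrank hDIM hMHS, Fin.prod_univ_three]
  simp [Nat.multichoose_two]

theorem E11_good (hALR : ALR_stmt) (hDIM : DIM_stmt) (hMHS : MHS_stmt) (a b e : ℕ) (he : 1 ≤ e)
    (hno : ∀ r, (a + 1) ∣ r ∨ (b + 1) ∣ r ∨ r / (a + 1) + r / (b + 1) ≠ e) :
    ¬ Special (![a, b, 1] : Fin 3 → ℕ) ![1, 1, e] := by
  apply hALR 3 _ _ (by norm_num)
  · intro i
    fin_cases i
    · exact le_refl 1
    · exact le_refl 1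
    · exact he
  · intro r _
    refine ⟨E11_X a b r, (E11_dim hMHS e r).trans ?_⟩
    rw [E11_h hDIM hMHS, Fin.sum_univ_three]
    have hD : (![a, b, 1] : Fin 3 → ℕ) 0 + (![a, b, 1] : Fin 3 → ℕ) 1 +
        (![a, b, 1] : Fin 3 → ℕ) 2 + 1 = (a + 1) + (b + 1) := by
      show a + b + 1 + 1 = _
      ring
    rw [hD, Nat.multichoose_one_right, Nat.multichoose_one_right]
    have h1 : ∀ jl : Fin (a + 1) × Fin (b + 1),
        ∑ i ∈ Finset.range r, E11_nu a b jl.1 jl.2 i =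
          (∑ i ∈ Finset.range r, if i % (a + 1) = (jl.1 : ℕ) then 1 else 0) +
            ∑ i ∈ Finset.range r, if i % (b + 1) = (jl.2 : ℕ) then 1 else 0 := by
      intro jl
      rw [← Finset.sum_add_distrib]
      rfl
    simp only [h1]
    refine E11_sum (a + 1) (b + 1) e r
      (fun j => ∑ i ∈ Finset.range r, if i % (a + 1) = (j : ℕ) then 1 else 0)
      (fun l => ∑ i ∈ Finset.range r, if i % (b + 1) = (l : ℕ) then 1 else 0)
      (E11_tot _ _ (Nat.succ_pos _)) (E11_tot _ _ (Nat.succ_pos _)) ?_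
    rcases Nat.lt_trichotomy (r / (a + 1) + r / (b + 1)) e with hlt | heq | hgt
    · left
      intro j l
      have h2 := (E11_cnt (a + 1) r j (Nat.succ_pos _) j.2).2.1
      have h3 := (E11_cnt (b + 1) r l (Nat.succ_pos _) l.2).2.1
      omega
    · left
      intro j l
      have h2 := (E11_cnt (a + 1) r j (Nat.succ_pos _) j.2).2.1
      have h3 := (E11_cnt (b + 1) r l (Nat.succ_pos _) l.2).2.1
      rcases hno r with h | h | h
      · have h4 := (E11_cnt (a + 1) r j (Nat.succ_pos _) j.2).2.2 h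
        omega
      · have h4 := (E11_cnt (b + 1) r l (Nat.succ_pos _) l.2).2.2 h
        omega
      · exact absurd heq h
    · right
      intro j l
      have h2 := (E11_cnt (a + 1) r j (Nat.succ_pos _) j.2).1
      have h3 := (E11_cnt (b + 1) r l (Nat.succ_pos _) l.2).1
      omega

/-- the largest `r` -/
theorem E11_max (a b e : ℕ) (r : ℕ) (h1 : ¬ (a + 1) ∣ r) (h2 : ¬ (b + 1) ∣ r)
    (h3 : r / (a + 1) + r / (b + 1) = e) :
    ∃ r, ¬ (a + 1) ∣ r ∧ ¬ (b + 1) ∣ r ∧ r / (a + 1) + r / (b + 1) = e ∧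
      ((a + 1) ∣ r + 1 ∨ (b + 1) ∣ r + 1) := by
  by_contra hcon
  push Not at hcon
  have key : ∀ m, ¬ (a + 1) ∣ r + m ∧ ¬ (b + 1) ∣ r + m ∧
      (r + m) / (a + 1) + (r + m) / (b + 1) = e := by
    intro m
    induction m with
    | zero => exact ⟨h1, h2, h3⟩
    | succ m ih =>
      obtain ⟨i1, i2, i3⟩ := ih
      obtain ⟨j1, j2⟩ := hcon (r + m) i1 i2 i3
      refine ⟨j1, j2, ?_⟩
      rw [← add_assoc, Nat.succ_div, Nat.succ_div, if_neg j1, if_neg j2]
      exact i3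
  apply (key (a * r)).1
  exact ⟨r, by ring⟩

theorem E11_num (A B e r α β y : ℕ) (hA : 2 ≤ A) (h1 : r + 1 = (α + 1) * A)
    (h2 : r = β * B + y) (hy : 0 < y) (hyB : y < B) (he : α + β = e) :
    A * B * (e + 1) - r * (A + B) + r < B * (β + 1) := by
  subst he
  have e1 : A * B * (α + β + 1) + A * y = r * (A + B) + B := by
    have : A * B * (α + β + 1) = B * ((α + 1) * A) + A * (β * B) := by ring
    rw [this, ← h1]
    have h3 : A * (β * B) + A * y = A * r := by rw [h2]; ring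
    calc B * (r + 1) + A * (β * B) + A * y = B * (r + 1) + (A * (β * B) + A * y) := by ring
      _ = r * (A + B) + B := by rw [h3]; ring
  have e2 : 2 * y ≤ A * y := Nat.mul_le_mul_right y hA
  have e3 : B * (β + 1) = β * B + B := by ring
  rw [e3]
  omega

end E11

theorem E11 (hDIM : DIM_stmt) (hMHS : MHS_stmt) (hALR : ALR_stmt) : E11_stmt := by
  intro a b e ha hb he
  constructor
  · intro hS
    by_contra hcon
    push Not at hcon
    refine E11_good hALR hDIM hMHS a b e he (fun r => ?_) hS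
    by_cases h1 : (a + 1) ∣ r
    · exact Or.inl h1
    · by_cases h2 : (b + 1) ∣ r
      · exact Or.inr (Or.inl h2)
      · exact Or.inr (Or.inr (hcon r h1 h2))
  · rintro ⟨r0, h1, h2, h3⟩
    obtain ⟨r, h1, h2, h3, h4⟩ := E11_max a b e r0 h1 h2 h3
    have hr : 1 ≤ r := by
      rcases Nat.eq_zero_or_pos r with h | h
      · exact absurd (h ▸ dvd_zero _) h1
      · exact h
    have hy1 : 0 < r % (a + 1) := Nat.pos_of_ne_zero fun h => h1 (Nat.dvd_of_mod_eq_zero h)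
    have hy2 : 0 < r % (b + 1) := Nat.pos_of_ne_zero fun h => h2 (Nat.dvd_of_mod_eq_zero h)
    have q1 := Nat.div_add_mod r (a + 1)
    have q2 := Nat.div_add_mod r (b + 1)
    have l1 := Nat.mod_lt r (Nat.succ_pos a)
    have l2 := Nat.mod_lt r (Nat.succ_pos b)
    have hsum : ∑ i, (![a, b, 1] : Fin 3 → ℕ) i + 1 = (a + 1) + (b + 1) := by
      rw [Fin.sum_univ_three]
      show a + b + 1 + 1 = _
      ring
    rcases h4 with h4 | h4
    · have h5 : (r + 1) / (a + 1) = r / (a + 1) + 1 := by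
        rw [Nat.succ_div, if_pos h4]
      have h6 : r + 1 = (r / (a + 1) + 1) * (a + 1) := by
        rw [← h5, Nat.div_mul_cancel h4]
      refine E11_special hMHS (d1 := ![1, 0, r / (a + 1)]) (d2 := ![0, 1, r / (b + 1)]) ?_ hr ?_ ?_
      · intro i
        fin_cases i
        · rfl
        · rfl
        · exact h3
      · rw [E11_h hDIM hMHS, Nat.multichoose_one_right, Nat.multichoose_zero_right, mul_one]
        rw [mul_comm] at h6
        omega
      · rw [E11_h hDIM hMHS, E11_h hDIM hMHS, hsum, Nat.multichoose_one_right,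
          Nat.multichoose_zero_right, Nat.multichoose_one_right, one_mul]
        exact E11_num (a + 1) (b + 1) e r _ _ (r % (b + 1)) (by omega) h6
          (by rw [mul_comm]; exact q2.symm) hy2 l2 h3
    · have h5 : (r + 1) / (b + 1) = r / (b + 1) + 1 := by
        rw [Nat.succ_div, if_pos h4]
      have h6 : r + 1 = (r / (b + 1) + 1) * (b + 1) := by
        rw [← h5, Nat.div_mul_cancel h4]
      refine E11_special hMHS (d1 := ![0, 1, r / (b + 1)]) (d2 := ![1, 0, r / (a + 1)]) ?_ hr ?_ ?_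
      · intro i
        fin_cases i
        · rfl
        · rfl
        · show r / (b + 1) + r / (a + 1) = e
          omega
      · rw [E11_h hDIM hMHS, Nat.multichoose_one_right, Nat.multichoose_zero_right, one_mul]
        rw [mul_comm] at h6
        omega
      · rw [E11_h hDIM hMHS, E11_h hDIM hMHS, hsum, Nat.multichoose_one_right,
          Nat.multichoose_zero_right, Nat.multichoose_one_right, mul_one]
        have := E11_num (b + 1) (a + 1) e r _ _ (r % (a + 1)) (by omega) h6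
          (by rw [mul_comm]; exact q1.symm) hy1 l1 (by omega)
        rwa [mul_comm (b + 1) (a + 1), add_comm (b + 1) (a + 1)] at this

end Pool.Agent.SV
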