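import Pool.Agent.helper65.SV.SpecE
import Pool.Agent.helper33.SV.E11

set_option autoImplicit false

namespace Pool.Agent.SV

open Module

theorem PFN_prod {k : ℕ} (f : Fin k → ℕ) (j : Fin k) :
    ∏ i, f i = f j * ∏ i : {i : Fin k // i ≠ j}, f i := by
  rw [← Finset.mul_prod_erase Finset.univ f (Finset.mem_univ j)]
  congr 1
  exact Finset.prod_subtype _ (fun x => by simp) f

theorem PFN_sum {k : ℕ} (f : Fin k → ℕ) (j : Fin k) :
    ∑ i, f i = f j + ∑ i : {i : Fin k // i ≠ j}, f i := by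
  rw [← Finset.add_sum_erase Finset.univ f (Finset.mem_univ j)]
  congr 1
  exact Finset.sum_subtype _ (fun x => by simp) f

theorem PFN (hPNU : PNU_stmt) (hPBR : PBR_stmt) (hPNB : PNB_stmt) (hALR : ALR_stmt)
    (hDIM : DIM_stmt) (hMHS : MHS_stmt) : PFN_stmt := by
  intro k n j hk hn hnj
  obtain ⟨E₀, hE₀⟩ := hPNU {i : Fin k // i ≠ j} (fun i => n i) (by
    rw [Fintype.card_subtype_compl, Fintype.card_fin, Fintype.card_subtype_eq]
    omega) (fun i => hn i)
  have hfin : {d : Fin k → ℕ | ∀ i, d i ≤ E₀ + 1}.Finite :=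
    Set.Finite.pi' fun _ => Set.finite_le_nat _
  refine hfin.subset ?_
  rintro d ⟨hd1, hd2, hS⟩
  by_contra hcon
  have hE : E₀ ≤ d j + 1 := by
    by_contra hlt
    apply hcon
    intro i
    by_cases hij : i = j
    · subst hij
      omega
    · rw [hd2 i hij]
      omega
  apply hALR k n d (by omega) hd1 ?_ hS
  intro r hr
  have h1 : finrank ℂ (MultiHom n d) =
      Fintype.card (Cell (fun i : {i : Fin k // i ≠ j} => n i)) * (d j + 1) := by
    rw [E11_finrank hDIM hMHS, PFN_prod _ j, hnj, Nat.multichoose_two,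
      (hPNB {i : Fin k // i ≠ j} (fun i => n i)).2.2.2, mul_comm]
    congr 1
    refine Finset.prod_congr rfl fun i _ => ?_
    rw [hd2 i i.2, Nat.multichoose_one_right]
  have h2 : ∑ i, n i + 1 = ∑ i : {i : Fin k // i ≠ j}, n i + 2 := by
    rw [PFN_sum n j, hnj]
    omega
  have h3 : ∑ i, n i = ∑ i : {i : Fin k // i ≠ j}, n i + 1 := by omega
  obtain ⟨y, t, hyt⟩ := hE₀ (d j + 1) hE r (by
    rw [h2, h1, h3] at hr
    exact hr)
  obtain ⟨x, hx⟩ := hPBR k n d j hnj hd2 r y t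
  refine ⟨x, hx.trans ?_⟩
  rw [h1, h2]
  exact hyt

end Pool.Agent.SV
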