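import Pool.Agent.helper96.SV.SpecA

/-! # sva:STP (MP_b5a345_ag) -/

set_option autoImplicit false

namespace Pool.Agent.SVA

open Polynomial Module

theorem STP_poly {K : Type} [Fintype K] [DecidableEq K] {m : K → ℕ} (a : Bx m → ℂ) (y₀ y₁ : Py m) :
    Pool.Agent.SV.PolyFun (fun t : ℂ => pr a (ten (y₀ + t • (y₁ - y₀)))) := by
  unfold pr ten
  refine Pool.Agent.SV.PolyFun.sum _ fun β _ => ?_
  refine Pool.Agent.SV.PolyFun.mul (Pool.Agent.SV.PolyFun.const _) ?_
  refine Pool.Agent.SV.PolyFun.prod _ fun i _ => ?_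
  have h : (fun t : ℂ => (y₀ + t • (y₁ - y₀)) i (β i)) =
      fun t : ℂ => y₀ i (β i) + t * (y₁ i (β i) - y₀ i (β i)) := by
    funext t
    simp [Pi.add_apply, Pi.smul_apply]
  rw [h]
  exact (Pool.Agent.SV.PolyFun.const _).add (Pool.Agent.SV.PolyFun.id.mul (Pool.Agent.SV.PolyFun.const _))

theorem STP (hITR : ITR_stmt) (hLIN : LIN_stmt) (hSUR : SUR_stmt) (hCNT : CNT_stmt) (hDIV : DIV_stmt)
    (hTEN : TEN_stmt) (hDVV : DVV_stmt) (hMNO : MNO_stmt) : STP_stmt := by
  intro K _ _ _ m hK hm e x r hG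
  classical
  obtain ⟨he, hx1, hxv, hcount, l, hl, hfr, hfr0⟩ := hG
  -- a new parameter
  obtain ⟨p, hp⟩ := Infinite.exists_notMem_finset ((l.map Prod.snd).toFinset)
  have hp' : ∀ Q ∈ l, Q.2 ≠ p := by
    intro Q hQ h
    apply hp
    rw [List.mem_toFinset, List.mem_map]
    exact ⟨Q, hQ, h⟩
  set P : Py m × ℂ := (fun i => Pi.single 0 1, p) with hP
  have hP0 : ∀ i, P.1 i ≠ 0 := by
    intro i h
    have := congrFun h 0
    simp [hP] at this
  have hmono := (hMNO (K := K) (m := m) e e (P :: l) l le_rfl (fun Q hQ => List.mem_cons_of_mem _ hQ)).2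
  have hcount' : vv m * e = finrank ℂ (NN e l) + l.length * DD m := by rw [hfr, hl, hcount]
  obtain ⟨L, l', P', hL, hlen, hP2, hne, hne0, h1, h2, h3⟩ :=
    hITR (K := K) (m := m) hK hm (DD m) e l P hp' hP0 hcount' hfr0 (by omega)
  rw [hfr] at h1 h3
  have hlen' : l'.length = r + L * vv m := by rw [hlen, hl]
  set e' := e + L * DD m with he'
  have hcnt' : vv m * e' = x + (r + L * vv m) * DD m := by
    rw [he', mul_add, hcount]; ring
  have he1 : 1 ≤ e' := by omega
  by_cases hxD : DD m < x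
  · refine ⟨L, e', x - DD m, hL, he1, by omega, by omega, ?_, P' :: l', ?_, ?_, ?_⟩
    · rw [hcnt', add_mul _ 1]; omega
    · rw [List.length_cons, hlen']
    · have h4 := (hCNT (K := K) (m := m) e' l' P').1
      rw [h1] at h4
      omega
    · have h4 := (hMNO (K := K) (m := m) (e' - 1) (e' - 1) (P' :: l') l' le_rfl
        (fun Q hQ => List.mem_cons_of_mem _ hQ)).2
      omega
  · push Not at hxD
    have hDv : DD m ≤ vv m := hDVV (K := K) (m := m) (by omega) hm
    have h30 : finrank ℂ (NN e' (P' :: l')) ≤ 0 := by omega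
    -- a non zero element
    have hFex : ∃ F ∈ NN e' l', F ≠ 0 := by
      by_contra hcon
      push Not at hcon
      have hbot : NN e' l' = ⊥ := by
        rw [Submodule.eq_bot_iff]
        exact hcon
      rw [hbot, finrank_bot] at h1
      omega
    obtain ⟨F, hF, hF0⟩ := hFex
    have hbot : NN (e' - 1) l' = ⊥ := by
      rw [← Submodule.finrank_eq_zero (R := ℂ)]
      exact h2
    have hev : ev P'.2 F ≠ 0 := by
      intro h
      have he2 : e' - 1 + 1 = e' := by omega
      obtain ⟨G, hG, hFG⟩ := hDIV (K := K) (m := m) (e' - 1) l' P'.2 hne F (by rw [he2]; exact hF) h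
      rw [hbot, Submodule.mem_bot] at hG
      apply hF0
      rw [hFG, hG]
      funext β
      simp
    obtain ⟨y₁, hy₁⟩ := (hTEN (K := K) (m := m)).1 (ev P'.2 F) hev
    have hfin1 := hLIN (K := K) (m := m) e' 0 l' P'.1 y₁ P'.2 (by simpa using h30)
    have hfin2 := (STP_poly (ev P'.2 F) P'.1 y₁).finite_zeros (t₀ := 1) (by simpa using hy₁)
    obtain ⟨t, ht⟩ := (hfin1.union hfin2).infinite_compl.nonempty
    rw [Set.mem_compl_iff, Set.mem_union, not_or] at ht
    obtain ⟨ht1, ht2⟩ := ht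
    have ht1' : finrank ℂ (NN e' ((P'.1 + t • (y₁ - P'.1), P'.2) :: l')) ≤ 0 := by
      by_contra h
      exact ht1 h
    have ht2' : pr (ev P'.2 F) (ten (P'.1 + t • (y₁ - P'.1))) ≠ 0 := ht2
    have hcnt'' : vv m * e' = finrank ℂ (NN e' l') + l'.length * DD m := by
      rw [h1, hlen', hcnt']
    have h5 := hSUR (K := K) (m := m) e' l' (P'.1 + t • (y₁ - P'.1)) P'.2 hne hcnt'' F hF ht2'
    rw [h1] at h5
    refine ⟨L, e' + 1, x + vv m - DD m, hL, by omega, by omega, by omega, ?_,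
      (P'.1 + t • (y₁ - P'.1), P'.2) :: l', ?_, ?_, ?_⟩
    · rw [mul_add, hcnt', add_mul _ 1]; omega
    · rw [List.length_cons, hlen']
    · omega
    · rw [Nat.add_sub_cancel]; omega

end Pool.Agent.SVA
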